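import Mathlib
import Pool.Agent.W66.QD
import Pool.Agent.N176.GP.Pair

set_option autoImplicit false

/-!
# Optimal windows: statements of the steps

`TT h N z` (W66/PG.lean) is the smoothed sum of `Λ(n) / n` over a window of logarithmic length `2 h`,
`cv q h y` (W66/QB.lean) the smoothed indicator of the integers with prime `q`-rough part,
`cnt b z j q` (N176/GP/Low.lean) the number of integers with prime `q`-rough part in the cell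
`[j b^(q-z), (j+1) b^(q-z))`.
-/

namespace Pool.Agent.N176.OW

open Finset Filter Topology MeasureTheory
open Pool.Agent.W66 (TT cv)
open Pool.Agent.N176.GP (cnt)

/-- TASK KT: primes in almost all intervals `[x, x + x^(1-c)]`, mean square, smoothed
(as `Pool.Agent.W66.KT` in `W66/PH.lean`, but with `lam ≤ c0 * Z` in the place of
`lam * log Z ≤ c0 * Z`). -/
def S_KT : Prop := ∀ A : ℕ, ∃ c0 Z0 : ℝ, 0 < c0 ∧ 1 ≤ Z0 ∧ ∀ Z lam h : ℝ, Z0 ≤ Z →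
  h = Real.exp (-lam) → √Z ≤ lam → lam ≤ c0 * Z → ∀ N : ℕ, Real.exp (Z + 2) ≤ N →
  ∫ z in Z..(Z + 1), (TT h N z - 1) ^ 2 ≤ 1 / Z ^ A

/-- TASK CV: as `Pool.Agent.W66.cv_L1` in `W66/QD.lean`, with the shorter smoothing scale
`exp (-(cc * Y))`. -/
def S_CV : Prop := ∀ c1 : ℝ, 0 < c1 → ∃ cc K : ℝ, 0 < cc ∧ 0 < K ∧ ∃ P : ℕ, ∀ q ≥ P,
  ∀ Y : ℝ, c1 * q ≤ Y → ∃ μ : ℝ, ∀ Y' : ℝ, Y ≤ Y' → Y' ≤ Y + 1 →
    ∫ y in Y'..(Y' + 1), |cv q (Real.exp (-(cc * Y))) y - μ| ≤ K * (Real.log q / q ^ 2)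

/-- TASK FM: the mean over the cells of level `z ≤ κ0 q`. -/
def S_FM : Prop := ∀ b : ℕ, 2 ≤ b → ∃ κ0 K : ℝ, 0 < κ0 ∧ 0 < K ∧ ∀ m0 : ℕ, ∃ P : ℕ, ∀ q ≥ P,
  ∀ z : ℕ, m0 ≤ z → (z : ℝ) ≤ κ0 * q →
    ∑ j ∈ Ico (b ^ (z - m0)) (b ^ (z + m0)),
      max 0 (|(cnt b z j q : ℝ) / (b : ℝ) ^ (q - z) -
        Real.exp Real.eulerMascheroniConstant / Real.log b * (Real.log q / q)| - K / q) ≤
    (b : ℝ) ^ z * ((Real.log q) ^ 2 / q ^ 2)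

/-- TASK SV: an upper bound sieve of dimension `k`, uniformly in `k`. -/
def S_SV : Prop := ∃ C : ℝ, 1 ≤ C ∧ ∀ (k N y : ℕ) (E : ℝ) (I : ℕ → Finset ℕ) (A : Finset ℕ),
  1 ≤ k → 2 ≤ y → k ^ 2 ≤ y → C * k * Real.log y ≤ Real.log N → A ⊆ Icc 1 N →
  (∀ l : ℕ, l.Prime → y < l → I l ⊆ range l ∧ (I l).card ≤ k) →
  (∀ n ∈ A, ∀ l : ℕ, l.Prime → y < l → C * k * Real.log l ≤ Real.log N → n % l ∉ I l) →
  ∑ l ∈ (Ioc y N).filter Nat.Prime, ((k : ℝ) - (I l).card) / l ≤ E →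
  (A.card : ℝ) ≤ C ^ k * Real.exp E * (k * Real.log y / Real.log N) ^ k * N

end Pool.Agent.N176.OW
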