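import Mathlib
import Pool.Agent.N176.OW.Stm
import Pool.Agent.N176.GP.Block

set_option autoImplicit false

/-!
# Optimal windows: statements of the steps, second part
-/

namespace Pool.Agent.N176.OW

open Finset Filter Topology MeasureTheory
open Pool.Agent.N176.GP (cnt XX)
open Pool.Agent.H305R2 (roughPart)

/-- the constant of the law in base `b` -/
noncomputable def kap (b : ℕ) : ℝ := Real.exp Real.eulerMascheroniConstant / Real.log b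

/-- the weight of a finite set of exponents -/
noncomputable def VT (T : Finset ℕ) : ℝ := ∑ p ∈ T, Real.log p / p

/-- the cell of level `z` with number `j`, at the level `t` -/
def cell (b z t j : ℕ) : Finset ℕ := Ico (j * b ^ (t - z)) ((j + 1) * b ^ (t - z))

/-- the exponents in `T` of the integer `n` of level `t` -/
def hits (T : Finset ℕ) (b t n : ℕ) : Finset ℕ :=
  T.filter (fun p => (roughPart p (n / b ^ (t - p))).Prime)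

/-- the digits of `n` (level `t`) between the levels `p` and `q` are zero -/
abbrev Deg (b t p q n : ℕ) : Prop := n / b ^ (t - q) = b ^ (q - p) * (n / b ^ (t - p))

/-- the exponents `q` in `T` which do not come from a smaller exponent `p` in `T` by zero digits -/
def mhits (T : Finset ℕ) (b t n : ℕ) : Finset ℕ :=
  (hits T b t n).filter (fun q => ∀ p ∈ hits T b t n, p < q → ¬ Deg b t p q n)

/-- the number of zero digits after the level `p` (`n` has the level `t`) -/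
def run (b t p n : ℕ) : ℕ := ((Ioc p t).filter (fun q => Deg b t p q n)).card

/-- some exponent in `T` of `n` has a large smooth part -/
def Big (T : Finset ℕ) (b t x n : ℕ) : Prop := ∃ p ∈ T, (roughPart p (n / b ^ (t - p))).Prime ∧
  Real.exp (x * Real.log b / 8) ≤ ((n / b ^ (t - p) / roughPart p (n / b ^ (t - p)) : ℕ) : ℝ)

/-- TASK PV: the prime sums twisted by `n^(-2πiξ)` with smooth cutoff, `|ξ| ≤ exp (A u)`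
(Vinogradov-Korobov range). -/
def S_PV : Prop := ∀ A K : ℕ, ∃ C : ℝ, ∀ u ξ : ℝ, 1 ≤ u → |ξ| ≤ Real.exp (A * u) →
  ‖Pool.Agent.W66.PS u (2 * Real.pi * ξ) - Pool.Agent.W66.PT u (2 * Real.pi * ξ)‖ ≤ C / u ^ K

/-- TASK FA: decorrelation of `ff q` and slowly varying functions
(as `Pool.Agent.W66.far_abs` in `W66/XA.lean`, but with `M ≤ κ * Y`). -/
def S_FA : Prop := ∀ c1 : ℝ, 0 < c1 → ∃ κ K : ℝ, 0 < κ ∧ 0 < K ∧ ∃ P : ℕ, ∀ q ≥ P,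
  ∀ (φ0 : ℝ → ℝ) (Y M : ℝ), Measurable φ0 → (∀ x, |φ0 x| ≤ 1) → c1 * q ≤ Y → M ≤ κ * Y →
    (∀ h : ℝ, 0 ≤ h → h ≤ 1 → ∀ v : ℝ, |v| ≤ h →
      ∫ u in Y..(Y + 1), |φ0 (u + v) - φ0 u| ≤ h * Real.exp M + 4 * h) →
    |∫ u in Y..(Y + 1), φ0 u * Pool.Agent.H305R2.gg q u| ≤ K * (Real.log q / q ^ 2)

/-- TASK FW: discrepancies of the pieces of a partition of a window. -/
def S_FW : Prop := ∀ c1 : ℝ, 0 < c1 → ∃ κ K : ℝ, 0 < κ ∧ 0 < K ∧ ∃ P : ℕ, ∀ q ≥ P,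
  ∀ Y : ℝ, c1 * q ≤ Y → ∀ (N : ℕ) (A : ℕ → ℝ), Monotone A → (N : ℝ) ≤ Real.exp (κ * Y) →
    Y ≤ A 0 → A N ≤ Y + 1 →
    ∑ j ∈ range N, |∫ u in (A j)..(A (j + 1)), Real.exp (u - Y) * Pool.Agent.H305R2.gg q u| ≤
      K * (Real.log q / q ^ 2)

/-- TASK SG: the denominator of the large sieve, uniformly in the dimension. -/
def S_SG : Prop := ∃ C : ℝ, 1 ≤ C ∧ ∀ (k y w Q : ℕ) (ω : ℕ → ℝ), 1 ≤ k → 2 ≤ y → k ^ 2 ≤ y → y ≤ w →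
  C * k * Real.log w ≤ Real.log Q → (∀ l, 0 ≤ ω l ∧ ω l ≤ k) →
  Real.exp (∑ l ∈ (Ioc y w).filter Nat.Prime, ω l / l) ≤
    C * ∑ s ∈ ((Ioc y w).filter Nat.Prime).powerset.filter (fun s => ∏ l ∈ s, l ≤ Q), ∏ l ∈ s, ω l / l

/-- TASK TU: sieve bound for a set of exponents and fixed nondegenerate last digits. -/
def S_TU : Prop := ∀ b : ℕ, 2 ≤ b → ∃ C : ℝ, 1 ≤ C ∧ ∃ P : ℕ, ∀ x ≥ P, ∀ F : Finset ℕ,
  (∀ p ∈ F, x < p ∧ p ≤ 2 * x) → (F.card : ℝ) ^ 2 ≤ Real.log x → ∀ p1 ∈ F, (∀ p ∈ F, p1 ≤ p) →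
  ∀ z : ℕ, 64 * z ≤ x → ∀ t : ℕ, 2 * x ≤ t → ∀ r < b ^ (t - p1),
  (∀ p ∈ F, ∀ q ∈ F, p < q → ¬ Deg b t p q r) → ∀ j : ℕ, 1 ≤ j →
  (((cell b z p1 j).filter (fun m => ∀ p ∈ F,
    (roughPart p ((b ^ (t - p1) * m + r) / b ^ (t - p))).Prime ∧
    (((b ^ (t - p1) * m + r) / b ^ (t - p) / roughPart p ((b ^ (t - p1) * m + r) / b ^ (t - p)) : ℕ) : ℝ) <
      Real.exp (x * Real.log b / 8))).card : ℝ) ≤
    (C * F.card * (Real.log x / x)) ^ F.card * (b : ℝ) ^ (p1 - z)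

/-- TASK DS: the sum over the last digits. -/
def S_DS : Prop := ∀ b : ℕ, 2 ≤ b → ∀ s : ℝ, 0 ≤ s → s ≤ 1 / 2 → ∀ (t : ℕ) (F : Finset ℕ),
  (∀ p ∈ F, p ≤ t) → ∀ p1 ∈ F, (∀ p ∈ F, p1 ≤ p) →
  ∑ r ∈ (range (b ^ (t - p1))).filter (fun r => ∀ p ∈ F, ∀ q ∈ F, p < q → ¬ Deg b t p q r),
    ∏ p ∈ F, ((1 + s) ^ (1 + run b t p r) - 1) ≤ (4 * s) ^ F.card * (b : ℝ) ^ (t - p1)

open Classical in
/-- TASK E4: the exponential moment of a fixed set of minimal exponents. -/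
def S_E4 : Prop := ∀ b : ℕ, 2 ≤ b → ∃ C : ℝ, 1 ≤ C ∧ ∃ P : ℕ, ∀ x ≥ P, ∀ T : Finset ℕ,
  (∀ p ∈ T, x < p ∧ p ≤ 2 * x) → ∀ z : ℕ, 64 * z ≤ x → ∀ t : ℕ, 2 * x ≤ t → ∀ j : ℕ, 1 ≤ j →
  ∀ s : ℝ, 0 ≤ s → s ≤ 1 / 2 → ∀ F : Finset ℕ, F ⊆ T → F.Nonempty → (F.card : ℝ) ^ 2 ≤ Real.log x →
  ∑ n ∈ (cell b z t j).filter (fun n => ¬ Big T b t x n ∧ F ⊆ mhits T b t n),
    ∏ p ∈ F, ((1 + s) ^ (1 + run b t p n) - 1) ≤
    (C * s * F.card * (Real.log x / x)) ^ F.card * (b : ℝ) ^ (t - z)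

open Classical in
/-- TASK RB: large smooth parts are rare. -/
def S_RB : Prop := ∀ b : ℕ, 2 ≤ b → ∃ c : ℝ, 0 < c ∧ ∃ P : ℕ, ∀ x ≥ P, ∀ T : Finset ℕ,
  (∀ p ∈ T, x < p ∧ p ≤ 2 * x) → ∀ z : ℕ, 64 * z ≤ x → ∀ t : ℕ, 2 * x ≤ t → ∀ j : ℕ, 1 ≤ j →
  j ≤ b ^ (2 * z) → (((cell b z t j).filter (fun n => Big T b t x n)).card : ℝ) ≤
    Real.exp (-(c * x)) * (b : ℝ) ^ (t - z)

/-- TASK MH: all exponents come from the minimal ones. -/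
def S_MH : Prop := ∀ (b t n : ℕ) (T : Finset ℕ), 2 ≤ b → (∀ p ∈ T, p ≤ t) →
  (hits T b t n).card ≤ ∑ p ∈ mhits T b t n, (1 + run b t p n)

open Classical in
/-- TASK EX: the exponential moment of the number of exponents in a block, given the first digits. -/
def S_EX : Prop := ∀ b : ℕ, 2 ≤ b → ∃ s1 C c : ℝ, 0 < s1 ∧ s1 ≤ 1 / 2 ∧ 0 < C ∧ 0 < c ∧ ∃ P : ℕ,
  ∀ x ≥ P, ∀ T : Finset ℕ, (∀ p ∈ T, p.Prime ∧ x < p ∧ p ≤ 2 * x) → ∀ z : ℕ, 64 * z ≤ x →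
  ∀ t : ℕ, 2 * x ≤ t → ∀ j : ℕ, 1 ≤ j → j ≤ b ^ (2 * z) →
  ∑ n ∈ (cell b z t j).filter (fun n => ((hits T b t n).card : ℝ) ≤ √(Real.log x)),
    ((1 + s1) ^ (hits T b t n).card - 1) ≤ C * VT T * (b : ℝ) ^ (t - z) ∧
  (((cell b z t j).filter (fun n => √(Real.log x) < ((hits T b t n).card : ℝ))).card : ℝ) ≤
    Real.exp (-(c * √(Real.log x))) * (b : ℝ) ^ (t - z)

/-- the mean over the cell of the number of exponents in `T` -/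
noncomputable def mT (b z : ℕ) (T : Finset ℕ) (j : ℕ) : ℝ := ∑ p ∈ T, (cnt b z j p : ℝ) / (b : ℝ) ^ (p - z)

open Classical in
/-- TASK BL: Laplace transform of the number of exponents in a block, given the first digits. -/
def S_BL : Prop := ∀ b : ℕ, 2 ≤ b → ∃ s1 C : ℝ, 0 < s1 ∧ s1 ≤ 1 / 2 ∧ 0 < C ∧ ∃ P : ℕ,
  ∀ x ≥ P, ∀ T : Finset ℕ, (∀ p ∈ T, p.Prime ∧ x < p ∧ p ≤ 2 * x) → ∀ z : ℕ, 64 * z ≤ x →
  ∀ t : ℕ, 2 * x ≤ t → ∀ j : ℕ, 1 ≤ j → j ≤ b ^ (2 * z) → ∀ δ : ℝ, 0 ≤ δ →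
  |mT b z T j - kap b * VT T| ≤ δ → ∀ s : ℝ, |s| ≤ s1 →
  ∑ n ∈ (cell b z t j).filter (fun n => ((hits T b t n).card : ℝ) ≤ √(Real.log x)),
    (1 + s) ^ (hits T b t n).card ≤
    Real.exp (s * (kap b * VT T) + |s| * δ + C * s ^ 2 * VT T) * (b : ℝ) ^ (t - z)

open Classical in
/-- TASK GC: most cells are good. -/
def S_GC : Prop := ∀ b : ℕ, 2 ≤ b → ∃ k1 : ℕ, 7 ≤ k1 ∧ ∃ K : ℝ, 0 < K ∧ ∀ m0 : ℕ, ∃ P : ℕ,
  ∀ i ≥ P, ∀ T : Finset ℕ, (∀ p ∈ T, p.Prime ∧ 2 ^ i < p ∧ p ≤ 2 ^ (i + 1)) →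
  (((Ico (b ^ (2 ^ (i + 1 - k1) - m0)) (b ^ (2 ^ (i + 1 - k1) + m0))).filter
    (fun m => 1 / (i : ℝ) ^ 2 + K * VT T / i < |mT b (2 ^ (i + 1 - k1)) T m - kap b * VT T|)).card : ℝ) ≤
    (b : ℝ) ^ (2 ^ (i + 1 - k1)) / (i : ℝ) ^ 2

/-- TASK IT: iteration of conditional bounds over increasing levels `τ 0 ≤ τ 1 ≤ ...`. -/
def S_IT : Prop := ∀ b : ℕ, 2 ≤ b → ∀ (τ : ℕ → ℕ) (w : ℕ → ℕ → ℝ) (E : ℕ → ℝ), Monotone τ → 1 ≤ τ 0 →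
  (∀ l n, 0 ≤ w l n) → (∀ l, 0 ≤ E l) →
  (∀ l m, 1 ≤ m → m ≤ b ^ (2 * τ l) →
    ∑ n ∈ cell b (τ l) (τ (l + 1)) m, w l n ≤ E l * (b : ℝ) ^ (τ (l + 1) - τ l)) →
  ∀ j k : ℕ, 1 ≤ j → j < b ^ (2 * τ 0) →
    ∑ n ∈ cell b (τ 0) (τ k) j, ∏ l ∈ range k, w l (n / b ^ (τ k - τ (l + 1))) ≤
      (∏ l ∈ range k, E l) * (b : ℝ) ^ (τ k - τ 0)

end Pool.Agent.N176.OW
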