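import Mathlib
import Pool.Agent.N176.OW.Stm2
import Pool.Agent.N176.GP.AE

set_option autoImplicit false

/-!
# Optimal windows: counting digits and measure; a maximal inequality
-/

namespace Pool.Agent.N176.OW

open Finset Filter Topology MeasureTheory
open Pool.Agent.N176.GP (sum_cells NB NB_spec NB_div div_level)
open Pool.Agent.H305R2 (roughPart)

/-- from a count of integers of level `t` to the measure of the amplitudes -/
lemma vol_le {b : ℕ} (hb : 2 ≤ b) {m0 t : ℕ} (hm : m0 ≤ t) (Pr : ℕ → Prop) [DecidablePred Pr] (Q : ℝ)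
    (hQ : (((Ico (b ^ (t - m0)) (b ^ (t + m0))).filter Pr).card : ℝ) ≤ Q * (b : ℝ) ^ t) :
    volume {β : ℝ | ((b : ℝ) ^ m0)⁻¹ < β ∧ β ≤ (b : ℝ) ^ m0 ∧ Pr (NB b β t)} ≤ ENNReal.ofReal Q := by
  have hb0 : (0 : ℝ) < b := by positivity
  have hbt : (0 : ℝ) < (b : ℝ) ^ t := by positivity
  set F := (Ico (b ^ (t - m0)) (b ^ (t + m0))).filter Pr with hF
  have hcover : {β : ℝ | ((b : ℝ) ^ m0)⁻¹ < β ∧ β ≤ (b : ℝ) ^ m0 ∧ Pr (NB b β t)} ⊆
      ⋃ n ∈ F, Set.Ioc ((n : ℝ) / (b : ℝ) ^ t) (((n : ℝ) + 1) / (b : ℝ) ^ t) := by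
    rintro β ⟨h1, h2, h3⟩
    have hβ : 0 < β := lt_trans (by positivity) h1
    obtain ⟨h4, h5⟩ := NB_spec hb hβ t
    rw [Set.mem_iUnion₂]
    refine ⟨NB b β t, ?_, ?_, ?_⟩
    · rw [hF, mem_filter, mem_Ico]
      refine ⟨⟨?_, ?_⟩, h3⟩
      · have h6 : ((b ^ (t - m0) : ℕ) : ℝ) < ((NB b β t + 1 : ℕ) : ℝ) := by
          push_cast
          calc (b : ℝ) ^ (t - m0) = ((b : ℝ) ^ m0)⁻¹ * (b : ℝ) ^ t := by
                have : (b : ℝ) ^ t = (b : ℝ) ^ m0 * (b : ℝ) ^ (t - m0) := by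
                  rw [← pow_add]; congr 1; omega
                rw [this]; field_simp
            _ < β * (b : ℝ) ^ t := mul_lt_mul_of_pos_right h1 hbt
            _ ≤ _ := h5
        have h7 : b ^ (t - m0) < NB b β t + 1 := by exact_mod_cast h6
        omega
      · have h6 : ((NB b β t : ℕ) : ℝ) < ((b ^ (t + m0) : ℕ) : ℝ) := by
          push_cast
          calc (NB b β t : ℝ) < β * (b : ℝ) ^ t := h4
            _ ≤ (b : ℝ) ^ m0 * (b : ℝ) ^ t := mul_le_mul_of_nonneg_right h2 hbt.le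
            _ = _ := by rw [← pow_add, add_comm]
        exact_mod_cast h6
    · rw [div_lt_iff₀ hbt]; exact h4
    · rw [le_div_iff₀ hbt]; exact h5
  calc volume _ ≤ volume (⋃ n ∈ F, Set.Ioc ((n : ℝ) / (b : ℝ) ^ t) (((n : ℝ) + 1) / (b : ℝ) ^ t)) :=
        measure_mono hcover
    _ ≤ ∑ n ∈ F, volume (Set.Ioc ((n : ℝ) / (b : ℝ) ^ t) (((n : ℝ) + 1) / (b : ℝ) ^ t)) :=
        measure_biUnion_finset_le _ _
    _ = ∑ n ∈ F, ENNReal.ofReal (((b : ℝ) ^ t)⁻¹) := by
        refine Finset.sum_congr rfl fun n _ => ?_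
        rw [Real.volume_Ioc]
        congr 1
        field_simp
        ring
    _ = ENNReal.ofReal ((F.card : ℝ) * ((b : ℝ) ^ t)⁻¹) := by
        rw [Finset.sum_const, nsmul_eq_mul, ENNReal.ofReal_mul (Nat.cast_nonneg _), ENNReal.ofReal_natCast]
    _ ≤ _ := by
        refine ENNReal.ofReal_le_ofReal ?_
        calc (F.card : ℝ) * ((b : ℝ) ^ t)⁻¹ ≤ (Q * (b : ℝ) ^ t) * ((b : ℝ) ^ t)⁻¹ :=
              mul_le_mul_of_nonneg_right hQ (by positivity)
          _ = _ := by field_simp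

lemma cell_card {b : ℕ} (z t j : ℕ) : (cell b z t j).card = b ^ (t - z) := by
  unfold cell
  rw [Nat.card_Ico, add_mul, one_mul]
  omega

lemma cell_self {b : ℕ} (z j : ℕ) : cell b z z j = {j} := by
  unfold cell
  rw [Nat.sub_self, pow_zero, mul_one, mul_one, Nat.Ico_succ_singleton]

/-- a cell is the union of the cells of the next level -/
lemma sum_cell {b : ℕ} {z u t : ℕ} (hzu : z ≤ u) (hut : u ≤ t) (j : ℕ) (g : ℕ → ℝ) :
    ∑ n ∈ cell b z t j, g n = ∑ m ∈ cell b z u j, ∑ n ∈ cell b u t m, g n := by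
  have e : b ^ (t - z) = b ^ (u - z) * b ^ (t - u) := by rw [← pow_add]; congr 1; omega
  unfold cell
  rw [e, ← mul_assoc, ← mul_assoc, sum_cells _ _ _ (Nat.mul_le_mul_right _ (Nat.le_succ j))]
  refine Finset.sum_congr rfl fun m _ => ?_
  rw [sum_cells _ _ _ (Nat.le_succ m), Nat.Ico_succ_singleton, Finset.sum_singleton]

lemma div_of_mem_cell {b : ℕ} (hb : 2 ≤ b) {z t j n : ℕ} (h : n ∈ cell b z t j) : n / b ^ (t - z) = j := by
  unfold cell at h
  rw [mem_Ico] at h
  have hB : 0 < b ^ (t - z) := by positivity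
  rw [Nat.div_eq_iff hB]
  constructor
  · exact h.1
  · have := h.2
    rw [add_mul, one_mul] at this
    omega

lemma mem_cell_pos {b : ℕ} (hb : 2 ≤ b) {z t j m : ℕ} (hzt : z ≤ t) (hj1 : 1 ≤ j) (hj2 : j < b ^ (2 * z))
    (hm : m ∈ cell b z t j) : 1 ≤ m ∧ m < b ^ (2 * t) := by
  unfold cell at hm
  rw [mem_Ico] at hm
  have h1 : 1 ≤ j * b ^ (t - z) := Nat.mul_pos hj1 (by positivity)
  have h2 : (j + 1) * b ^ (t - z) ≤ b ^ (2 * t) := by
    calc (j + 1) * b ^ (t - z) ≤ b ^ (2 * z) * b ^ (t - z) := Nat.mul_le_mul_right _ hj2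
      _ = b ^ (2 * z + (t - z)) := (pow_add _ _ _).symm
      _ ≤ b ^ (2 * t) := Nat.pow_le_pow_right (by omega) (by omega)
  omega

/-- the product of the weights exceeds `lam` times the product of the bounds at some time -/
def Exc (b : ℕ) (τ : ℕ → ℕ) (w : ℕ → ℕ → ℝ) (E : ℕ → ℝ) (k : ℕ) (lam : ℝ) (n : ℕ) : Prop :=
  ∃ i ≤ k, lam * ∏ l ∈ range i, E l ≤ ∏ l ∈ range i, w l (n / b ^ (τ k - τ (l + 1)))

open Classical in
/-- maximal inequality: the product of conditional weights is large, relative to the bounds, on a small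
set only -/
theorem itm {b : ℕ} (hb : 2 ≤ b) : ∀ (k : ℕ) (τ : ℕ → ℕ) (w : ℕ → ℕ → ℝ) (E : ℕ → ℝ), Monotone τ →
    (∀ l n, 0 ≤ w l n) → (∀ l, 0 < E l) →
    (∀ l m, 1 ≤ m → m ≤ b ^ (2 * τ l) →
      ∑ n ∈ cell b (τ l) (τ (l + 1)) m, w l n ≤ E l * (b : ℝ) ^ (τ (l + 1) - τ l)) →
    ∀ j : ℕ, 1 ≤ j → j < b ^ (2 * τ 0) → ∀ lam : ℝ, 0 < lam →
      (((cell b (τ 0) (τ k) j).filter (Exc b τ w E k lam)).card : ℝ) ≤ (b : ℝ) ^ (τ k - τ 0) / lam := by
  intro k
  have hb0 : (0 : ℝ) < b := by positivity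
  have hcardle : ∀ (z t j : ℕ) (Pr : ℕ → Prop), (((cell b z t j).filter Pr).card : ℝ) ≤ (b : ℝ) ^ (t - z) := by
    intro z t j Pr
    have h1 : ((cell b z t j).filter Pr).card ≤ b ^ (t - z) := by
      rw [← cell_card (b := b) z t j]
      exact Finset.card_filter_le _ _
    exact_mod_cast h1
  have hsmall : ∀ (z t j : ℕ) (Pr : ℕ → Prop) (lam : ℝ), 0 < lam → lam ≤ 1 →
      (((cell b z t j).filter Pr).card : ℝ) ≤ (b : ℝ) ^ (t - z) / lam := by
    intro z t j Pr lam h0 h1
    refine (hcardle z t j Pr).trans ?_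
    rw [le_div_iff₀ h0]
    have : (0 : ℝ) < (b : ℝ) ^ (t - z) := by positivity
    nlinarith
  induction k with
  | zero =>
    intro τ w E hτ hw hE hstep j hj1 hj2 lam hlam
    rcases le_or_gt lam 1 with h1 | h1
    · exact hsmall _ _ _ _ lam hlam h1
    · rw [Finset.filter_false_of_mem, Finset.card_empty]
      · push_cast; positivity
      · rintro n _ ⟨i, hi, h2⟩
        have : i = 0 := by omega
        subst this
        simp only [Finset.range_zero, Finset.prod_empty, mul_one] at h2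
        linarith
  | succ k ih =>
    intro τ w E hτ hw hE hstep j hj1 hj2 lam hlam
    rcases le_or_gt lam 1 with h1 | h1
    · exact hsmall _ _ _ _ lam hlam h1
    have h01 : τ 0 ≤ τ 1 := hτ (by omega)
    have h1k : τ 1 ≤ τ (k + 1) := hτ (by omega)
    -- split
    have hsplit : ∀ Pr : ℕ → Prop, (((cell b (τ 0) (τ (k + 1)) j).filter Pr).card : ℝ) =
        ∑ m ∈ cell b (τ 0) (τ 1) j, (((cell b (τ 1) (τ (k + 1)) m).filter Pr).card : ℝ) := by
      intro Pr
      have e : ∀ (F : Finset ℕ), ((F.filter Pr).card : ℝ) =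
          ∑ n ∈ F, if Pr n then (1 : ℝ) else 0 := by
        intro F
        rw [← Finset.sum_filter, Finset.sum_const, nsmul_eq_mul, mul_one]
      rw [e, Finset.sum_congr rfl fun m _ => e _]
      exact sum_cell h01 h1k j (fun n => if Pr n then (1 : ℝ) else 0)
    rw [hsplit]
    have hin : ∀ m ∈ cell b (τ 0) (τ 1) j, (((cell b (τ 1) (τ (k + 1)) m).filter
          (Exc b τ w E (k + 1) lam)).card : ℝ) ≤
          w 0 m * ((b : ℝ) ^ (τ (k + 1) - τ 1) / (lam * E 0)) := by
      intro m hm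
      obtain ⟨hm1, hm2⟩ := mem_cell_pos hb h01 hj1 hj2 hm
      have hrew : ∀ n ∈ cell b (τ 1) (τ (k + 1)) m, Exc b τ w E (k + 1) lam n →
          ∃ i ≤ k, lam * (E 0 * ∏ l ∈ range i, E (l + 1)) ≤
            w 0 m * ∏ l ∈ range i, w (l + 1) (n / b ^ (τ (k + 1) - τ (l + 1 + 1))) := by
        rintro n hn ⟨i, hi, h2⟩
        rcases Nat.eq_zero_or_pos i with h3 | h3
        · subst h3
          simp only [Finset.range_zero, Finset.prod_empty, mul_one] at h2
          linarith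
        · obtain ⟨i', rfl⟩ : ∃ i', i = i' + 1 := ⟨i - 1, by omega⟩
          refine ⟨i', by omega, ?_⟩
          rw [Finset.prod_range_succ', Finset.prod_range_succ'] at h2
          have h4 := div_of_mem_cell hb hn
          have h5 : n / b ^ (τ (k + 1) - τ (0 + 1)) = m := h4
          rw [h5] at h2
          calc lam * (E 0 * ∏ l ∈ range i', E (l + 1)) = lam * ((∏ l ∈ range i', E (l + 1)) * E 0) := by ring
            _ ≤ _ := h2
            _ = _ := by ring
      rcases (hw 0 m).eq_or_lt with hw0 | hw0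
      · rw [Finset.filter_false_of_mem, Finset.card_empty]
        · rw [← hw0]; push_cast; simp
        · intro n hn h2
          obtain ⟨i, _, h3⟩ := hrew n hn h2
          rw [← hw0, zero_mul] at h3
          have h4 : 0 < ∏ l ∈ range i, E (l + 1) := Finset.prod_pos fun l _ => hE _
          have := mul_pos hlam (mul_pos (hE 0) h4)
          linarith
      · set lam' := lam * E 0 / w 0 m with hlam'
        have hlam'0 : 0 < lam' := by
          have := hE 0
          positivity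
        have hih := ih (fun l => τ (l + 1)) (fun l => w (l + 1)) (fun l => E (l + 1))
          (fun a c hac => hτ (by omega)) (fun l n => hw _ _) (fun l => hE _)
          (fun l m h3 h4 => hstep (l + 1) m h3 h4) m hm1 hm2 lam' hlam'0
        have hle : (((cell b (τ 1) (τ (k + 1)) m).filter (Exc b τ w E (k + 1) lam)).card : ℝ) ≤
          (((cell b (τ (0 + 1)) (τ (k + 1)) m).filter
            (Exc b (fun l => τ (l + 1)) (fun l => w (l + 1)) (fun l => E (l + 1)) k lam')).card : ℝ) := by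
          have : ((cell b (τ 1) (τ (k + 1)) m).filter (Exc b τ w E (k + 1) lam)) ⊆
            ((cell b (τ (0 + 1)) (τ (k + 1)) m).filter
              (Exc b (fun l => τ (l + 1)) (fun l => w (l + 1)) (fun l => E (l + 1)) k lam')) := by
            intro n hn
            rw [mem_filter] at hn ⊢
            refine ⟨hn.1, ?_⟩
            obtain ⟨i, hi, h3⟩ := hrew n hn.1 hn.2
            refine ⟨i, hi, ?_⟩
            rw [hlam', div_mul_eq_mul_div, div_le_iff₀ hw0]
            linarith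
          exact_mod_cast Finset.card_le_card this
        refine hle.trans (hih.trans (le_of_eq ?_))
        rw [hlam']
        have := hE 0
        field_simp
    refine (Finset.sum_le_sum hin).trans ?_
    rw [← Finset.sum_mul]
    have h2 := hstep 0 j hj1 hj2.le
    have hE0 := hE 0
    have h3 : 0 ≤ (b : ℝ) ^ (τ (k + 1) - τ 1) / (lam * E 0) := by positivity
    calc (∑ m ∈ cell b (τ 0) (τ 1) j, w 0 m) * ((b : ℝ) ^ (τ (k + 1) - τ 1) / (lam * E 0)) ≤
          (E 0 * (b : ℝ) ^ (τ (0 + 1) - τ 0)) * ((b : ℝ) ^ (τ (k + 1) - τ 1) / (lam * E 0)) :=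
          mul_le_mul_of_nonneg_right h2 h3
      _ = ((b : ℝ) ^ (τ 1 - τ 0) * (b : ℝ) ^ (τ (k + 1) - τ 1)) / lam := by
          rw [zero_add]
          field_simp
      _ = _ := by
          rw [← pow_add]
          congr 2
          omega

end Pool.Agent.N176.OW
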