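import Mathlib
import Pool.Agent.N176.OW.M1

set_option autoImplicit false

/-!
# Optimal windows: dyadic blocks of exponents and the exponential inequality
-/

namespace Pool.Agent.N176.OW

open Finset Filter Topology MeasureTheory
open Pool.Agent.N176.GP (sum_cells NB NB_spec NB_div div_level MB card_primes log_div_le)
open Pool.Agent.H305R2 (roughPart)

open Classical in
/-- the primes of `S` in `(2^i, 2^(i+1)]` -/
noncomputable def TS (S : Set ℕ) (i : ℕ) : Finset ℕ :=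
  (Ioc (2 ^ i) (2 ^ (i + 1))).filter (fun p => p.Prime ∧ p ∈ S)

open Classical in
/-- the sum of `log p / p` over the primes `p ≤ n` of `S` -/
noncomputable def VS (S : Set ℕ) (n : ℕ) : ℝ :=
  ∑ p ∈ (range (n + 1)).filter (fun p => p.Prime ∧ p ∈ S), Real.log p / p

lemma VS_mono (S : Set ℕ) : Monotone (VS S) := by
  classical
  intro m n hmn
  unfold VS
  refine Finset.sum_le_sum_of_subset_of_nonneg ?_ fun p _ _ => ?_
  · intro p hp
    rw [mem_filter, mem_range] at hp ⊢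
    exact ⟨by omega, hp.2⟩
  · have := Real.log_natCast_nonneg p
    positivity

lemma VS_nonneg (S : Set ℕ) (n : ℕ) : 0 ≤ VS S n := by
  classical
  unfold VS
  refine Finset.sum_nonneg fun p _ => ?_
  have := Real.log_natCast_nonneg p
  positivity

lemma VT_nonneg (T : Finset ℕ) : 0 ≤ VT T := by
  unfold VT
  refine Finset.sum_nonneg fun p _ => ?_
  have := Real.log_natCast_nonneg p
  positivity

lemma VS_step (S : Set ℕ) (i : ℕ) : VS S (2 ^ (i + 1)) = VS S (2 ^ i) + VT (TS S i) := by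
  classical
  unfold VS VT TS
  rw [Finset.sum_filter, Finset.sum_filter, Finset.sum_filter]
  have h : 2 ^ i + 1 ≤ 2 ^ (i + 1) + 1 := by
    have : 2 ^ i ≤ 2 ^ (i + 1) := Nat.pow_le_pow_right (by norm_num) (by omega)
    omega
  rw [← Finset.sum_range_add_sum_Ico _ h]
  congr 1
  refine Finset.sum_congr ?_ fun _ _ => rfl
  ext p
  rw [mem_Ico, mem_Ioc]
  omega

lemma TS_prop (S : Set ℕ) (i : ℕ) : ∀ p ∈ TS S i, p.Prime ∧ 2 ^ i < p ∧ p ≤ 2 * 2 ^ i := by
  classical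
  intro p hp
  unfold TS at hp
  rw [mem_filter, mem_Ioc, pow_succ] at hp
  exact ⟨hp.2.1, hp.1.1, by omega⟩

/-- the number of exponents in the block -/
noncomputable def NBl (b : ℕ) (S : Set ℕ) (β : ℝ) (i : ℕ) : ℕ :=
  (hits (TS S i) b (2 ^ (i + 1)) (NB b β (2 ^ (i + 1)))).card

lemma MB_step {b : ℕ} (hb : 2 ≤ b) (S : Set ℕ) {β : ℝ} (hβ : 0 < β) (i : ℕ) :
    MB b S β (2 ^ (i + 1)) = MB b S β (2 ^ i) + NBl b S β i := by
  classical
  unfold MB NBl hits TS
  have hle : 2 ^ i ≤ 2 ^ (i + 1) := Nat.pow_le_pow_right (by norm_num) (by omega)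
  rw [← Finset.card_union_of_disjoint]
  · congr 1
    ext p
    simp only [mem_union, mem_filter, mem_range, mem_Ioc]
    constructor
    · rintro ⟨h1, h2, h3, h4⟩
      rcases Nat.lt_or_ge p (2 ^ i + 1) with h5 | h5
      · exact Or.inl ⟨h5, h2, h3, h4⟩
      · refine Or.inr ⟨⟨⟨by omega, by omega⟩, h2, h3⟩, ?_⟩
        rw [NB_div hb hβ (by omega)]
        exact h4
    · rintro (⟨h1, h2, h3, h4⟩ | ⟨⟨⟨h1, h1'⟩, h2, h3⟩, h4⟩)
      · exact ⟨by omega, h2, h3, h4⟩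
      · rw [NB_div hb hβ (by omega)] at h4
        exact ⟨by omega, h2, h3, h4⟩
  · rw [Finset.disjoint_left]
    intro p h1 h2
    simp only [mem_filter, mem_range, mem_Ioc] at h1 h2
    omega

lemma VT_bound : ∃ C0 : ℝ, 0 < C0 ∧ ∀ (S : Set ℕ) (i : ℕ), VT (TS S i) ≤ C0 := by
  obtain ⟨C3, hC3, hcard⟩ := card_primes
  refine ⟨2 * C3 + 1, by positivity, fun S i => ?_⟩
  rcases Nat.eq_zero_or_pos i with h0 | h0
  · subst h0
    have hT : TS S 0 ⊆ {2} := by
      intro p hp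
      obtain ⟨h1, h2, h3⟩ := TS_prop S 0 p hp
      rw [mem_singleton]
      simp only [pow_zero] at h2 h3
      omega
    have h1 : VT (TS S 0) ≤ ∑ p ∈ ({2} : Finset ℕ), Real.log p / p := by
      unfold VT
      refine Finset.sum_le_sum_of_subset_of_nonneg hT fun p _ _ => ?_
      have := Real.log_natCast_nonneg p
      positivity
    rw [Finset.sum_singleton] at h1
    have := Real.log_two_lt_d9
    push_cast at h1
    linarith
  · have hx : 2 ≤ 2 ^ i := by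
      calc 2 = 2 ^ 1 := rfl
        _ ≤ 2 ^ i := Nat.pow_le_pow_right (by norm_num) h0
    have h1 := hcard (2 ^ i) hx (TS S i) (TS_prop S i)
    have hx2 : (2 : ℝ) ≤ ((2 ^ i : ℕ) : ℝ) := by exact_mod_cast hx
    have hl : 0 < Real.log ((2 ^ i : ℕ) : ℝ) := Real.log_pos (by linarith)
    have h2 : VT (TS S i) ≤ (TS S i).card * (2 * Real.log ((2 ^ i : ℕ) : ℝ) / ((2 ^ i : ℕ) : ℝ)) := by
      unfold VT
      rw [← nsmul_eq_mul]
      refine Finset.sum_le_card_nsmul _ _ _ fun p hp => ?_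
      obtain ⟨_, h3, h4⟩ := TS_prop S i p hp
      exact log_div_le hx h3 h4
    have hx0 : (0 : ℝ) < ((2 ^ i : ℕ) : ℝ) := by linarith
    calc VT (TS S i) ≤ _ := h2
      _ ≤ (C3 * ((2 ^ i : ℕ) : ℝ) / Real.log ((2 ^ i : ℕ) : ℝ)) *
          (2 * Real.log ((2 ^ i : ℕ) : ℝ) / ((2 ^ i : ℕ) : ℝ)) := by gcongr
      _ = 2 * C3 := by field_simp
      _ ≤ _ := by linarith

/-- the tolerance -/
noncomputable def dl (K : ℝ) (S : Set ℕ) (i : ℕ) : ℝ := 1 / (i : ℝ) ^ 2 + K * VT (TS S i) / i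

lemma dl_nonneg {K : ℝ} (hK : 0 ≤ K) (S : Set ℕ) (i : ℕ) : 0 ≤ dl K S i := by
  have := VT_nonneg (TS S i)
  unfold dl
  positivity

/-- the amplitude is good at the block `i` -/
def Gd (b k1 : ℕ) (K : ℝ) (S : Set ℕ) (β : ℝ) (i : ℕ) : Prop :=
  |mT b (2 ^ (i + 1 - k1)) (TS S i) (NB b β (2 ^ (i + 1 - k1))) - kap b * VT (TS S i)| ≤ dl K S i ∧
    (NBl b S β i : ℝ) ≤ √(Real.log ((2 ^ i : ℕ) : ℝ))

/-- partial sums along the blocks `a, a + k1, a + 2 k1, ...` -/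
noncomputable def VP (S : Set ℕ) (k1 a i : ℕ) : ℝ := ∑ l ∈ range i, VT (TS S (a + l * k1))

noncomputable def DP (K : ℝ) (S : Set ℕ) (k1 a i : ℕ) : ℝ := ∑ l ∈ range i, dl K S (a + l * k1)

noncomputable def NP (b : ℕ) (S : Set ℕ) (β : ℝ) (k1 a i : ℕ) : ℕ := ∑ l ∈ range i, NBl b S β (a + l * k1)

open Classical in
theorem core {b : ℕ} (hb : 2 ≤ b) {s1 C : ℝ} {P k1 : ℕ} {K : ℝ} (hk1 : 7 ≤ k1) (hK : 0 < K)
    (hs1 : s1 ≤ 1 / 2)
    (hBL : ∀ x ≥ P, ∀ T : Finset ℕ, (∀ p ∈ T, p.Prime ∧ x < p ∧ p ≤ 2 * x) → ∀ z : ℕ, 64 * z ≤ x →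
      ∀ t : ℕ, 2 * x ≤ t → ∀ j : ℕ, 1 ≤ j → j ≤ b ^ (2 * z) → ∀ δ : ℝ, 0 ≤ δ →
      |mT b z T j - kap b * VT T| ≤ δ → ∀ s : ℝ, |s| ≤ s1 →
      ∑ n ∈ (cell b z t j).filter (fun n => ((hits T b t n).card : ℝ) ≤ √(Real.log x)),
        (1 + s) ^ (hits T b t n).card ≤
        Real.exp (s * (kap b * VT T) + |s| * δ + C * s ^ 2 * VT T) * (b : ℝ) ^ (t - z))
    (S : Set ℕ) {m0 a : ℕ} (ha1 : P ≤ 2 ^ a) (ha2 : k1 ≤ a) (ha3 : m0 ≤ 2 ^ (a + 1 - k1))
    {s : ℝ} (hs : |s| ≤ s1) {lam : ℝ} (hlam : 0 < lam) :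
    volume {β : ℝ | ((b : ℝ) ^ m0)⁻¹ < β ∧ β ≤ (b : ℝ) ^ m0 ∧ ∃ i : ℕ,
      (∀ l < i, Gd b k1 K S β (a + l * k1)) ∧
      lam * Real.exp (s * (kap b * VP S k1 a i) + |s| * DP K S k1 a i + C * s ^ 2 * VP S k1 a i) ≤
        (1 + s) ^ (NP b S β k1 a i)} ≤ ENNReal.ofReal ((b : ℝ) ^ m0 / lam) := by
  have hb0 : (0 : ℝ) < b := by positivity
  set τ : ℕ → ℕ := fun l => 2 ^ (a + 1 - k1 + l * k1) with hτ
  have hτmono : Monotone τ := by
    intro x y hxy
    exact Nat.pow_le_pow_right (by norm_num) (by nlinarith)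
  have hτS : ∀ l, τ (l + 1) = 2 ^ (a + l * k1 + 1) := by
    intro l
    simp only [hτ]
    congr 1
    rw [Nat.succ_mul]
    omega
  have hτl : ∀ l, τ l = 2 ^ (a + l * k1 + 1 - k1) := by
    intro l
    simp only [hτ]
    congr 1
    omega
  have hs' : -(1 / 2) ≤ s := by
    have := neg_abs_le s
    linarith
  set w : ℕ → ℕ → ℝ := fun l n => if |mT b (τ l) (TS S (a + l * k1)) (n / b ^ (τ (l + 1) - τ l)) -
      kap b * VT (TS S (a + l * k1))| ≤ dl K S (a + l * k1) ∧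
      ((hits (TS S (a + l * k1)) b (τ (l + 1)) n).card : ℝ) ≤ √(Real.log ((2 ^ (a + l * k1) : ℕ) : ℝ))
      then (1 + s) ^ (hits (TS S (a + l * k1)) b (τ (l + 1)) n).card else 0 with hw
  set E : ℕ → ℝ := fun l => Real.exp (s * (kap b * VT (TS S (a + l * k1))) + |s| * dl K S (a + l * k1) +
      C * s ^ 2 * VT (TS S (a + l * k1))) with hE
  have hw0 : ∀ l n, 0 ≤ w l n := by
    intro l n
    simp only [hw]
    split_ifs
    · have : 0 ≤ 1 + s := by linarith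
      positivity
    · exact le_rfl
  have hE0 : ∀ l, 0 < E l := fun l => Real.exp_pos _
  have hstep : ∀ l m, 1 ≤ m → m ≤ b ^ (2 * τ l) →
      ∑ n ∈ cell b (τ l) (τ (l + 1)) m, w l n ≤ E l * (b : ℝ) ^ (τ (l + 1) - τ l) := by
    intro l m hm1 hm2
    by_cases hg : |mT b (τ l) (TS S (a + l * k1)) m - kap b * VT (TS S (a + l * k1))| ≤
        dl K S (a + l * k1)
    · have h1 : ∑ n ∈ cell b (τ l) (τ (l + 1)) m, w l n =
          ∑ n ∈ (cell b (τ l) (τ (l + 1)) m).filter (fun n =>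
            ((hits (TS S (a + l * k1)) b (τ (l + 1)) n).card : ℝ) ≤
              √(Real.log ((2 ^ (a + l * k1) : ℕ) : ℝ))),
            (1 + s) ^ (hits (TS S (a + l * k1)) b (τ (l + 1)) n).card := by
        rw [Finset.sum_filter]
        refine Finset.sum_congr rfl fun n hn => ?_
        simp only [hw]
        rw [div_of_mem_cell hb hn]
        by_cases h2 : ((hits (TS S (a + l * k1)) b (τ (l + 1)) n).card : ℝ) ≤
              √(Real.log ((2 ^ (a + l * k1) : ℕ) : ℝ))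
        · rw [if_pos ⟨hg, h2⟩, if_pos h2]
        · rw [if_neg (fun h => h2 h.2), if_neg h2]
      rw [h1]
      refine hBL (2 ^ (a + l * k1)) ?_ (TS S (a + l * k1)) (TS_prop S _) (τ l) ?_ (τ (l + 1)) ?_ m hm1 hm2
        (dl K S (a + l * k1)) (dl_nonneg hK.le S _) hg s hs
      · exact ha1.trans (Nat.pow_le_pow_right (by norm_num) (by omega))
      · rw [hτl]
        calc 64 * 2 ^ (a + l * k1 + 1 - k1) = 2 ^ (6 + (a + l * k1 + 1 - k1)) := by rw [pow_add]; norm_num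
          _ ≤ 2 ^ (a + l * k1) := Nat.pow_le_pow_right (by norm_num) (by omega)
      · rw [hτS, pow_succ]
        omega
    · have h1 : ∑ n ∈ cell b (τ l) (τ (l + 1)) m, w l n = 0 := by
        refine Finset.sum_eq_zero fun n hn => ?_
        simp only [hw]
        rw [div_of_mem_cell hb hn, if_neg (fun h => hg h.1)]
      rw [h1]
      have := hE0 l
      positivity
  have hm0 : m0 ≤ τ 0 := by
    simp only [hτ]
    simpa using ha3
  -- finite horizon
  have hfin : ∀ k : ℕ, volume {β : ℝ | ((b : ℝ) ^ m0)⁻¹ < β ∧ β ≤ (b : ℝ) ^ m0 ∧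
      Exc b τ w E k lam (NB b β (τ k))} ≤ ENNReal.ofReal ((b : ℝ) ^ m0 / lam) := by
    intro k
    have h0k : τ 0 ≤ τ k := hτmono (Nat.zero_le k)
    refine vol_le hb (hm0.trans h0k) _ _ ?_
    have e : ((((Ico (b ^ (τ k - m0)) (b ^ (τ k + m0))).filter (Exc b τ w E k lam)).card : ℕ) : ℝ) =
        ∑ j ∈ Ico (b ^ (τ 0 - m0)) (b ^ (τ 0 + m0)),
          (((cell b (τ 0) (τ k) j).filter (Exc b τ w E k lam)).card : ℝ) := by
      have e0 : ∀ (F : Finset ℕ), ((F.filter (Exc b τ w E k lam)).card : ℝ) =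
          ∑ n ∈ F, if Exc b τ w E k lam n then (1 : ℝ) else 0 := by
        intro F
        rw [← Finset.sum_filter, Finset.sum_const, nsmul_eq_mul, mul_one]
      rw [e0, Finset.sum_congr rfl fun m _ => e0 _]
      have e1 : b ^ (τ k - m0) = b ^ (τ 0 - m0) * b ^ (τ k - τ 0) := by
        rw [← pow_add]; congr 1; omega
      have e2 : b ^ (τ k + m0) = b ^ (τ 0 + m0) * b ^ (τ k - τ 0) := by
        rw [← pow_add]; congr 1; omega
      rw [e1, e2, sum_cells _ _ _ (Nat.pow_le_pow_right (by omega) (by omega))]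
      refine Finset.sum_congr rfl fun j _ => ?_
      unfold cell
      rw [sum_cells _ _ _ (Nat.le_succ j), Nat.Ico_succ_singleton, Finset.sum_singleton]
    rw [e]
    calc ∑ j ∈ Ico (b ^ (τ 0 - m0)) (b ^ (τ 0 + m0)),
          (((cell b (τ 0) (τ k) j).filter (Exc b τ w E k lam)).card : ℝ) ≤
          ∑ j ∈ Ico (b ^ (τ 0 - m0)) (b ^ (τ 0 + m0)), (b : ℝ) ^ (τ k - τ 0) / lam := by
          refine Finset.sum_le_sum fun j hj => ?_
          rw [mem_Ico] at hj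
          have hj1 : 1 ≤ j := by
            have : 1 ≤ b ^ (τ 0 - m0) := Nat.one_le_pow _ _ (by omega)
            omega
          have hj2 : j < b ^ (2 * τ 0) := by
            have : b ^ (τ 0 + m0) ≤ b ^ (2 * τ 0) := Nat.pow_le_pow_right (by omega) (by omega)
            omega
          exact itm hb k τ w E hτmono hw0 hE0 hstep j hj1 hj2 lam hlam
      _ ≤ (b : ℝ) ^ (τ 0 + m0) * ((b : ℝ) ^ (τ k - τ 0) / lam) := by
          rw [Finset.sum_const, Nat.card_Ico, nsmul_eq_mul]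
          refine mul_le_mul_of_nonneg_right ?_ (by positivity)
          have : ((b ^ (τ 0 + m0) - b ^ (τ 0 - m0) : ℕ) : ℝ) ≤ ((b ^ (τ 0 + m0) : ℕ) : ℝ) := by
            exact_mod_cast Nat.sub_le _ _
          refine this.trans (le_of_eq ?_)
          push_cast
          rfl
      _ = _ := by
          have : (b : ℝ) ^ (τ 0 + m0) * (b : ℝ) ^ (τ k - τ 0) = (b : ℝ) ^ m0 * (b : ℝ) ^ τ k := by
            rw [← pow_add, ← pow_add]; congr 1; omega
          rw [← mul_div_assoc, this]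
          ring
  -- the event
  set Q : ℕ → Set ℝ := fun k => {β : ℝ | ((b : ℝ) ^ m0)⁻¹ < β ∧ β ≤ (b : ℝ) ^ m0 ∧ ∃ i ≤ k,
      (∀ l < i, Gd b k1 K S β (a + l * k1)) ∧
      lam * Real.exp (s * (kap b * VP S k1 a i) + |s| * DP K S k1 a i + C * s ^ 2 * VP S k1 a i) ≤
        (1 + s) ^ (NP b S β k1 a i)} with hQ
  have hQle : ∀ k, volume (Q k) ≤ ENNReal.ofReal ((b : ℝ) ^ m0 / lam) := by
    intro k
    refine (measure_mono ?_).trans (hfin k)
    rintro β ⟨h1, h2, i, hi, h3, h4⟩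
    refine ⟨h1, h2, i, hi, ?_⟩
    have hβ : 0 < β := lt_trans (by positivity) h1
    have hwl : ∀ l ∈ range i, w l (NB b β (τ k) / b ^ (τ k - τ (l + 1))) =
        (1 + s) ^ (NBl b S β (a + l * k1)) := by
      intro l hl
      rw [mem_range] at hl
      rw [NB_div hb hβ (hτmono (by omega))]
      obtain ⟨g1, g2⟩ := h3 l hl
      simp only [hw]
      rw [NB_div hb hβ (hτmono (by omega))]
      have hN : (hits (TS S (a + l * k1)) b (τ (l + 1)) (NB b β (τ (l + 1)))).card =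
          NBl b S β (a + l * k1) := by
        unfold NBl
        rw [hτS]
      rw [hN, if_pos ⟨by rw [hτl]; exact g1, g2⟩]
    rw [Finset.prod_congr rfl hwl, Finset.prod_pow_eq_pow_sum]
    have hEp : ∏ l ∈ range i, E l = Real.exp (s * (kap b * VP S k1 a i) + |s| * DP K S k1 a i +
        C * s ^ 2 * VP S k1 a i) := by
      simp only [hE]
      rw [← Real.exp_sum]
      congr 1
      rw [Finset.sum_add_distrib, Finset.sum_add_distrib]
      unfold VP DP
      simp only [Finset.mul_sum]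
    rw [hEp]
    exact h4
  have hQmono : Monotone Q := by
    intro x y hxy β hβ
    obtain ⟨h1, h2, i, hi, h3⟩ := hβ
    exact ⟨h1, h2, i, hi.trans hxy, h3⟩
  have hunion : {β : ℝ | ((b : ℝ) ^ m0)⁻¹ < β ∧ β ≤ (b : ℝ) ^ m0 ∧ ∃ i : ℕ,
      (∀ l < i, Gd b k1 K S β (a + l * k1)) ∧
      lam * Real.exp (s * (kap b * VP S k1 a i) + |s| * DP K S k1 a i + C * s ^ 2 * VP S k1 a i) ≤
        (1 + s) ^ (NP b S β k1 a i)} ⊆ ⋃ k, Q k := by
    rintro β ⟨h1, h2, i, h3⟩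
    rw [Set.mem_iUnion]
    exact ⟨i, h1, h2, i, le_rfl, h3⟩
  refine (measure_mono hunion).trans ?_
  rw [hQmono.measure_iUnion]
  exact iSup_le hQle

end Pool.Agent.N176.OW
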