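import Mathlib
import Pool.Agent.N176.OW.M2

set_option autoImplicit false

/-!
# Optimal windows: the choice of the parameter
-/

namespace Pool.Agent.N176.OW

open Finset Filter Topology MeasureTheory

lemma choose_s {s1 Vm L : ℝ} (hs1 : 0 < s1) (hs12 : s1 ≤ 1 / 2) (hVm : 0 ≤ Vm) (hL : 0 < L) :
    ∃ s : ℝ, 0 < s ∧ s ≤ s1 ∧ s ^ 2 * Vm ≤ L ∧ s1 * L ≤ s * (√(Vm * L) + L) := by
  rcases le_or_gt (s1 ^ 2 * Vm) L with h | h
  · refine ⟨s1, hs1, le_rfl, h, ?_⟩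
    have := Real.sqrt_nonneg (Vm * L)
    nlinarith
  · have hV : 0 < Vm := by
      by_contra hc
      have : Vm = 0 := le_antisymm (not_lt.1 hc) hVm
      rw [this, mul_zero] at h
      linarith
    refine ⟨√(L / Vm), Real.sqrt_pos.2 (by positivity), ?_, ?_, ?_⟩
    · rw [Real.sqrt_le_left hs1.le, div_le_iff₀ hV]
      exact h.le
    · rw [Real.sq_sqrt (by positivity)]
      field_simp
      exact le_rfl
    · have h1 : √(L / Vm) * √(Vm * L) = L := by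
        rw [← Real.sqrt_mul (by positivity)]
        have : L / Vm * (Vm * L) = L ^ 2 := by field_simp
        rw [this, Real.sqrt_sq hL.le]
      have h2 : 0 ≤ √(L / Vm) * L := by positivity
      rw [mul_add, h1]
      nlinarith

lemma log_one_add_ge {s : ℝ} (h0 : 0 ≤ s) : s - s ^ 2 / 2 ≤ Real.log (1 + s) := by
  have h := Real.le_log_one_add_of_nonneg h0
  refine le_trans ?_ h
  rw [le_div_iff₀ (by linarith)]
  nlinarith [mul_nonneg h0 (sq_nonneg s), sq_nonneg s]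

lemma log_one_sub_ge {s : ℝ} (h0 : 0 ≤ s) (h1 : s ≤ 1 / 2) : -(s + 2 * s ^ 2) ≤ Real.log (1 - s) := by
  have h := Real.one_sub_inv_le_log_of_pos (show 0 < 1 - s by linarith)
  refine le_trans ?_ h
  have h2 : 0 < 1 - s := by linarith
  have h3 : (1 - s)⁻¹ ≤ 1 + s + 2 * s ^ 2 := by
    rw [inv_le_iff_one_le_mul₀ h2]
    nlinarith [mul_nonneg h0 h0, mul_nonneg (mul_nonneg h0 h0) (sub_nonneg.2 h1)]
  linarith

/-- parameters for the deviation bounds -/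
structure Par (κ C K2 s1 A : ℝ) : Prop where
  hκ : 0 < κ
  hC : 0 < C
  hK2 : 0 < K2
  hs1 : 0 < s1
  hs12 : s1 ≤ 1 / 2
  hA : A = (10 + 2 * K2 + 2 * C + 4 * κ) / s1

theorem dev_up {κ C K2 s1 A : ℝ} (h : Par κ C K2 s1 A) {s Vm V L Δ : ℝ} {N : ℕ} (hs : 0 < s) (hs' : s ≤ s1)
    (hL : 0 < L) (hV : 0 ≤ V) (hVm : V ≤ Vm) (hsV : s ^ 2 * Vm ≤ L)
    (hsD : s1 * L ≤ s * (√(Vm * L) + L)) (hΔ : s * Δ ≤ K2 * L)
    (hN : κ * V + A * (√(Vm * L) + L) ≤ N) :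
    Real.exp (5 * L) * Real.exp (s * (κ * V) + |s| * Δ + C * s ^ 2 * V) ≤ (1 + s) ^ N := by
  obtain ⟨hκ, hC, hK2, hs1, hs12, hA⟩ := h
  set D := √(Vm * L) + L with hD
  have hD0 : 0 < D := by
    have := Real.sqrt_nonneg (Vm * L)
    linarith
  have hA0 : 0 < A := by rw [hA]; positivity
  have h1s : (0 : ℝ) < 1 + s := by linarith
  rw [abs_of_pos hs, ← Real.exp_add]
  have e : (1 + s) ^ N = Real.exp (N * Real.log (1 + s)) := by
    rw [Real.exp_nat_mul, Real.exp_log h1s]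
  rw [e, Real.exp_le_exp]
  have h1 := log_one_add_ge hs.le
  have hss : 0 ≤ s - s ^ 2 / 2 := by nlinarith
  have h2 : (κ * V + A * D) * (s - s ^ 2 / 2) ≤ N * Real.log (1 + s) :=
    mul_le_mul hN h1 hss (Nat.cast_nonneg _)
  refine le_trans ?_ h2
  have hV2 : s ^ 2 * V ≤ L := le_trans (mul_le_mul_of_nonneg_left hVm (sq_nonneg s)) hsV
  have h3 : A * s1 = 10 + 2 * K2 + 2 * C + 4 * κ := by rw [hA]; field_simp
  have h4 : A * (s1 * L) ≤ A * (s * D) := mul_le_mul_of_nonneg_left hsD hA0.le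
  have h5 : A * (s1 * L) = (10 + 2 * K2 + 2 * C + 4 * κ) * L := by rw [← h3]; ring
  have h6 : A * D * (s / 2) ≤ A * D * (s - s ^ 2 / 2) := by
    apply mul_le_mul_of_nonneg_left _ (by positivity)
    nlinarith
  have h7 : A * D * (s / 2) = A * (s * D) / 2 := by ring
  have h8 : κ * (s ^ 2 * V) ≤ κ * L := mul_le_mul_of_nonneg_left hV2 hκ.le
  have h9 : C * (s ^ 2 * V) ≤ C * L := mul_le_mul_of_nonneg_left hV2 hC.le
  nlinarith

theorem dev_low {κ C K2 s1 A : ℝ} (h : Par κ C K2 s1 A) {s Vm V L Δ : ℝ} {N : ℕ} (hs : 0 < s) (hs' : s ≤ s1)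
    (hL : 0 < L) (hV : 0 ≤ V) (hVm : V ≤ Vm) (hsV : s ^ 2 * Vm ≤ L)
    (hsD : s1 * L ≤ s * (√(Vm * L) + L)) (hΔ : s * Δ ≤ K2 * L)
    (hN : (N : ℝ) + A * (√(Vm * L) + L) ≤ κ * V) :
    Real.exp (5 * L) * Real.exp ((-s) * (κ * V) + |(-s)| * Δ + C * (-s) ^ 2 * V) ≤ (1 + (-s)) ^ N := by
  obtain ⟨hκ, hC, hK2, hs1, hs12, hA⟩ := h
  set D := √(Vm * L) + L with hD
  have hD0 : 0 < D := by
    have := Real.sqrt_nonneg (Vm * L)
    linarith
  have hA0 : 0 < A := by rw [hA]; positivity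
  have h1s : (0 : ℝ) < 1 - s := by linarith
  rw [abs_neg, abs_of_pos hs, ← Real.exp_add, ← sub_eq_add_neg]
  have e : (1 - s) ^ N = Real.exp (N * Real.log (1 - s)) := by
    rw [Real.exp_nat_mul, Real.exp_log h1s]
  rw [e, Real.exp_le_exp]
  have h1 := log_one_sub_ge hs.le (hs'.trans hs12)
  have hss : 0 ≤ s + 2 * s ^ 2 := by positivity
  have h2 : (N : ℝ) * (-(s + 2 * s ^ 2)) ≤ N * Real.log (1 - s) :=
    mul_le_mul_of_nonneg_left h1 (Nat.cast_nonneg _)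
  have h2' : -((κ * V - A * D) * (s + 2 * s ^ 2)) ≤ (N : ℝ) * (-(s + 2 * s ^ 2)) := by
    have : (N : ℝ) * (s + 2 * s ^ 2) ≤ (κ * V - A * D) * (s + 2 * s ^ 2) :=
      mul_le_mul_of_nonneg_right (by linarith) hss
    linarith
  refine le_trans ?_ (h2'.trans h2)
  have hV2 : s ^ 2 * V ≤ L := le_trans (mul_le_mul_of_nonneg_left hVm (sq_nonneg s)) hsV
  have h3 : A * s1 = 10 + 2 * K2 + 2 * C + 4 * κ := by rw [hA]; field_simp
  have h4 : A * (s1 * L) ≤ A * (s * D) := mul_le_mul_of_nonneg_left hsD hA0.le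
  have h5 : A * (s1 * L) = (10 + 2 * K2 + 2 * C + 4 * κ) * L := by rw [← h3]; ring
  have h7 : 0 ≤ A * D * (2 * s ^ 2) := by positivity
  have h8 : κ * (s ^ 2 * V) ≤ κ * L := mul_le_mul_of_nonneg_left hV2 hκ.le
  have h9 : C * (s ^ 2 * V) ≤ C * L := mul_le_mul_of_nonneg_left hV2 hC.le
  nlinarith

end Pool.Agent.N176.OW
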