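import Mathlib
import Pool.Agent.N176.OW.M3

set_option autoImplicit false

/-!
# Optimal windows: almost every amplitude is good at all large blocks; sum of the tolerances
-/

namespace Pool.Agent.N176.OW

open Finset Filter Topology MeasureTheory
open Pool.Agent.N176.GP (sum_cells NB NB_spec NB_div div_level MB card_primes log_div_le)

lemma exp_neg_le {u : ℝ} (hu : 0 < u) : Real.exp (-u) ≤ 24 / u ^ 4 := by
  have h := Real.pow_div_factorial_le_exp u hu.le 4
  have e : ((Nat.factorial 4 : ℕ) : ℝ) = 24 := by norm_num [Nat.factorial]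
  rw [e] at h
  rw [Real.exp_neg, inv_eq_one_div, div_le_div_iff₀ (Real.exp_pos _) (by positivity)]
  rw [div_le_iff₀ (by norm_num)] at h
  linarith

open Classical in
theorem good_ae {b : ℕ} (hb : 2 ≤ b) {c : ℝ} {P k1 : ℕ} {K : ℝ} (hk1 : 7 ≤ k1) (hc : 0 < c)
    (hEX : ∀ x ≥ P, ∀ T : Finset ℕ, (∀ p ∈ T, p.Prime ∧ x < p ∧ p ≤ 2 * x) → ∀ z : ℕ, 64 * z ≤ x →
      ∀ t : ℕ, 2 * x ≤ t → ∀ j : ℕ, 1 ≤ j → j ≤ b ^ (2 * z) →
      (((cell b z t j).filter (fun n => √(Real.log x) < ((hits T b t n).card : ℝ))).card : ℝ) ≤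
        Real.exp (-(c * √(Real.log x))) * (b : ℝ) ^ (t - z))
    (hGC : ∀ m0 : ℕ, ∃ P : ℕ,
      ∀ i ≥ P, ∀ T : Finset ℕ, (∀ p ∈ T, p.Prime ∧ 2 ^ i < p ∧ p ≤ 2 ^ (i + 1)) →
      (((Ico (b ^ (2 ^ (i + 1 - k1) - m0)) (b ^ (2 ^ (i + 1 - k1) + m0))).filter
        (fun m => 1 / (i : ℝ) ^ 2 + K * VT T / i < |mT b (2 ^ (i + 1 - k1)) T m - kap b * VT T|)).card : ℝ) ≤
        (b : ℝ) ^ (2 ^ (i + 1 - k1)) / (i : ℝ) ^ 2)
    (S : Set ℕ) : ∀ᵐ β : ℝ, 0 < β → ∀ᶠ i : ℕ in atTop, Gd b k1 K S β i := by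
  have hb0 : (0 : ℝ) < b := by positivity
  have hl2 : 0 < Real.log 2 := Real.log_pos (by norm_num)
  have hae : ∀ m0 : ℕ, ∀ᵐ β : ℝ, ((b : ℝ) ^ m0)⁻¹ < β → β ≤ (b : ℝ) ^ m0 →
      ∀ᶠ i : ℕ in atTop, Gd b k1 K S β i := by
    intro m0
    obtain ⟨P2, hP2⟩ := hGC m0
    have hpow : Tendsto (fun i : ℕ => 2 ^ (i + 1 - k1)) atTop atTop := by
      refine (tendsto_pow_atTop_atTop_of_one_lt (by norm_num)).comp ?_
      exact tendsto_atTop_mono (fun i => show i - k1 ≤ i + 1 - k1 by omega) (tendsto_sub_atTop_nat k1)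
    have hpow2 : Tendsto (fun i : ℕ => 2 ^ i) atTop atTop := tendsto_pow_atTop_atTop_of_one_lt (by norm_num)
    obtain ⟨i0, hi0⟩ := ((hpow.eventually_ge_atTop m0).and ((hpow2.eventually_ge_atTop P).and
      ((eventually_ge_atTop P2).and ((eventually_ge_atTop k1).and
      (eventually_ge_atTop 1))))).exists_forall_of_atTop
    set p : ℕ → ℝ → Prop := fun i β => i0 ≤ i ∧ ((b : ℝ) ^ m0)⁻¹ < β ∧
      β ≤ (b : ℝ) ^ m0 ∧ ¬ Gd b k1 K S β i with hp
    set C' : ℝ := 1 + (b : ℝ) ^ m0 * (24 / (c ^ 4 * Real.log 2 ^ 2)) with hC'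
    have hmeas : ∀ i : ℕ, volume {β : ℝ | p i β} ≤ ENNReal.ofReal (C' * (1 / (i : ℝ) ^ 2)) := by
      intro i
      by_cases hi : i0 ≤ i
      · obtain ⟨h1, h2, h3, h4, h5⟩ := hi0 i hi
        have hir : (1 : ℝ) ≤ i := by exact_mod_cast h5
        set z := 2 ^ (i + 1 - k1) with hz
        set T := TS S i with hT
        have hTp : ∀ p ∈ T, p.Prime ∧ 2 ^ i < p ∧ p ≤ 2 ^ (i + 1) := by
          intro p hp
          obtain ⟨g1, g2, g3⟩ := TS_prop S i p hp
          exact ⟨g1, g2, by rw [pow_succ]; omega⟩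
        -- the two parts
        have hA : volume {β : ℝ | ((b : ℝ) ^ m0)⁻¹ < β ∧ β ≤ (b : ℝ) ^ m0 ∧
            (1 / (i : ℝ) ^ 2 + K * VT T / i < |mT b z T (NB b β z) - kap b * VT T|)} ≤
            ENNReal.ofReal (1 / (i : ℝ) ^ 2) := by
          refine vol_le hb h1 (fun m => 1 / (i : ℝ) ^ 2 + K * VT T / i < |mT b z T m - kap b * VT T|) _ ?_
          refine (hP2 i h3 T hTp).trans (le_of_eq ?_)
          ring
        have hzt : z ≤ 2 ^ (i + 1) := Nat.pow_le_pow_right (by norm_num) (by omega)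
        have hx0 : (0 : ℝ) < Real.log ((2 ^ i : ℕ) : ℝ) := by
          refine Real.log_pos ?_
          have : 2 ≤ 2 ^ i := by
            calc 2 = 2 ^ 1 := rfl
              _ ≤ 2 ^ i := Nat.pow_le_pow_right (by norm_num) h5
          have : (2 : ℝ) ≤ ((2 ^ i : ℕ) : ℝ) := by exact_mod_cast this
          linarith
        have hB : volume {β : ℝ | ((b : ℝ) ^ m0)⁻¹ < β ∧ β ≤ (b : ℝ) ^ m0 ∧
            (√(Real.log ((2 ^ i : ℕ) : ℝ)) < ((hits T b (2 ^ (i + 1)) (NB b β (2 ^ (i + 1)))).card : ℝ))} ≤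
            ENNReal.ofReal ((b : ℝ) ^ m0 * Real.exp (-(c * √(Real.log ((2 ^ i : ℕ) : ℝ))))) := by
          refine vol_le hb (h1.trans hzt) (fun n => √(Real.log ((2 ^ i : ℕ) : ℝ)) <
            ((hits T b (2 ^ (i + 1)) n).card : ℝ)) _ ?_
          set Pr : ℕ → Prop := fun n => √(Real.log ((2 ^ i : ℕ) : ℝ)) <
            ((hits T b (2 ^ (i + 1)) n).card : ℝ) with hPr
          set t := 2 ^ (i + 1) with ht
          have e : ((((Ico (b ^ (t - m0)) (b ^ (t + m0))).filter Pr).card : ℕ) : ℝ) =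
              ∑ j ∈ Ico (b ^ (z - m0)) (b ^ (z + m0)), (((cell b z t j).filter Pr).card : ℝ) := by
            have e0 : ∀ (F : Finset ℕ), ((F.filter Pr).card : ℝ) =
                ∑ n ∈ F, if Pr n then (1 : ℝ) else 0 := by
              intro F
              rw [← Finset.sum_filter, Finset.sum_const, nsmul_eq_mul, mul_one]
            rw [e0, Finset.sum_congr rfl fun m _ => e0 _]
            have e1 : b ^ (t - m0) = b ^ (z - m0) * b ^ (t - z) := by
              rw [← pow_add]; congr 1; omega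
            have e2 : b ^ (t + m0) = b ^ (z + m0) * b ^ (t - z) := by
              rw [← pow_add]; congr 1; omega
            rw [e1, e2, sum_cells _ _ _ (Nat.pow_le_pow_right (by omega) (by omega))]
            refine Finset.sum_congr rfl fun j _ => ?_
            unfold cell
            rw [sum_cells _ _ _ (Nat.le_succ j), Nat.Ico_succ_singleton, Finset.sum_singleton]
          rw [e]
          calc ∑ j ∈ Ico (b ^ (z - m0)) (b ^ (z + m0)), (((cell b z t j).filter Pr).card : ℝ) ≤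
              ∑ j ∈ Ico (b ^ (z - m0)) (b ^ (z + m0)),
                Real.exp (-(c * √(Real.log ((2 ^ i : ℕ) : ℝ)))) * (b : ℝ) ^ (t - z) := by
                refine Finset.sum_le_sum fun j hj => ?_
                rw [mem_Ico] at hj
                have hj1 : 1 ≤ j := by
                  have : 1 ≤ b ^ (z - m0) := Nat.one_le_pow _ _ (by omega)
                  omega
                have hj2 : j ≤ b ^ (2 * z) := by
                  have : b ^ (z + m0) ≤ b ^ (2 * z) := Nat.pow_le_pow_right (by omega) (by omega)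
                  omega
                refine hEX (2 ^ i) h2 T (TS_prop S i) z ?_ t ?_ j hj1 hj2
                · calc 64 * 2 ^ (i + 1 - k1) = 2 ^ (6 + (i + 1 - k1)) := by rw [pow_add]; norm_num
                    _ ≤ 2 ^ i := Nat.pow_le_pow_right (by norm_num) (by omega)
                · rw [ht, pow_succ]; omega
            _ ≤ (b : ℝ) ^ (z + m0) * (Real.exp (-(c * √(Real.log ((2 ^ i : ℕ) : ℝ)))) * (b : ℝ) ^ (t - z)) := by
                rw [Finset.sum_const, Nat.card_Ico, nsmul_eq_mul]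
                refine mul_le_mul_of_nonneg_right ?_ (by positivity)
                have : ((b ^ (z + m0) - b ^ (z - m0) : ℕ) : ℝ) ≤ ((b ^ (z + m0) : ℕ) : ℝ) := by
                  exact_mod_cast Nat.sub_le _ _
                refine this.trans (le_of_eq ?_)
                push_cast
                rfl
            _ = _ := by
                have : (b : ℝ) ^ (z + m0) * (b : ℝ) ^ (t - z) = (b : ℝ) ^ m0 * (b : ℝ) ^ t := by
                  rw [← pow_add, ← pow_add]; congr 1; omega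
                calc _ = ((b : ℝ) ^ (z + m0) * (b : ℝ) ^ (t - z)) *
                      Real.exp (-(c * √(Real.log ((2 ^ i : ℕ) : ℝ)))) := by ring
                  _ = _ := by rw [this]; ring
        have hexp : Real.exp (-(c * √(Real.log ((2 ^ i : ℕ) : ℝ)))) ≤
            24 / (c ^ 4 * Real.log 2 ^ 2) * (1 / (i : ℝ) ^ 2) := by
          refine (exp_neg_le (by positivity)).trans (le_of_eq ?_)
          have e1 : Real.log ((2 ^ i : ℕ) : ℝ) = i * Real.log 2 := by
            push_cast; rw [Real.log_pow]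
          have e2 : √(Real.log ((2 ^ i : ℕ) : ℝ)) ^ 4 = (i * Real.log 2) ^ 2 := by
            rw [show (4 : ℕ) = 2 * 2 from rfl, pow_mul, Real.sq_sqrt hx0.le, e1]
          rw [mul_pow, e2]
          field_simp
        have hsub : {β : ℝ | p i β} ⊆ {β : ℝ | ((b : ℝ) ^ m0)⁻¹ < β ∧ β ≤ (b : ℝ) ^ m0 ∧
            (1 / (i : ℝ) ^ 2 + K * VT T / i < |mT b z T (NB b β z) - kap b * VT T|)} ∪
            {β : ℝ | ((b : ℝ) ^ m0)⁻¹ < β ∧ β ≤ (b : ℝ) ^ m0 ∧
            (√(Real.log ((2 ^ i : ℕ) : ℝ)) < ((hits T b (2 ^ (i + 1)) (NB b β (2 ^ (i + 1)))).card : ℝ))} := by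
          rintro β ⟨_, g1, g2, g3⟩
          unfold Gd at g3
          rw [not_and_or, not_le, not_le] at g3
          rcases g3 with g3 | g3
          · exact Or.inl ⟨g1, g2, g3⟩
          · exact Or.inr ⟨g1, g2, g3⟩
        calc volume {β : ℝ | p i β} ≤ _ := measure_mono hsub
          _ ≤ _ := measure_union_le _ _
          _ ≤ ENNReal.ofReal (1 / (i : ℝ) ^ 2) +
              ENNReal.ofReal ((b : ℝ) ^ m0 * Real.exp (-(c * √(Real.log ((2 ^ i : ℕ) : ℝ))))) :=
              add_le_add hA hB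
          _ = ENNReal.ofReal (1 / (i : ℝ) ^ 2 +
              (b : ℝ) ^ m0 * Real.exp (-(c * √(Real.log ((2 ^ i : ℕ) : ℝ))))) :=
              (ENNReal.ofReal_add (by positivity) (by positivity)).symm
          _ ≤ _ := by
              refine ENNReal.ofReal_le_ofReal ?_
              rw [hC', add_mul, one_mul, mul_assoc]
              have : (0 : ℝ) ≤ (b : ℝ) ^ m0 := by positivity
              have := mul_le_mul_of_nonneg_left hexp this
              linarith
      · have : {β : ℝ | p i β} = ∅ := by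
          rw [Set.eq_empty_iff_forall_notMem]
          rintro β ⟨h1, _⟩
          exact hi h1
        rw [this, measure_empty]
        exact zero_le
    have hsum : ∑' i : ℕ, volume {β : ℝ | p i β} ≠ ⊤ := by
      refine ne_top_of_le_ne_top ?_ (ENNReal.tsum_le_tsum hmeas)
      have hs : Summable fun i : ℕ => C' * (1 / (i : ℝ) ^ 2) :=
        (Real.summable_one_div_nat_pow.2 (show 1 < 2 by norm_num)).mul_left _
      have hC'0 : 0 < C' := by positivity
      rw [← ENNReal.ofReal_tsum_of_nonneg (fun i => by positivity) hs]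
      exact ENNReal.ofReal_ne_top
    have hfr := measure_setOfPred_frequently_eq_zero hsum
    have hae1 : ∀ᵐ β : ℝ, ¬ ∃ᶠ i in atTop, p i β := by
      rw [ae_iff]
      simpa only [not_not] using hfr
    filter_upwards [hae1] with β hβ h1 h2
    rw [not_frequently] at hβ
    filter_upwards [hβ, eventually_ge_atTop i0] with i h3 h4
    by_contra hcon
    exact h3 ⟨h4, h1, h2, hcon⟩
  have hae' : ∀ᵐ β : ℝ, ∀ m0 : ℕ, ((b : ℝ) ^ m0)⁻¹ < β → β ≤ (b : ℝ) ^ m0 →
      ∀ᶠ i : ℕ in atTop, Gd b k1 K S β i := ae_all_iff.2 hae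
  filter_upwards [hae'] with β hβ hβ0
  obtain ⟨m0, hm1, hm2⟩ : ∃ m0 : ℕ, ((b : ℝ) ^ m0)⁻¹ < β ∧ β ≤ (b : ℝ) ^ m0 := by
    have hb1 : (1 : ℝ) < b := by exact_mod_cast (by omega : 1 < b)
    have ht : Tendsto (fun m : ℕ => (b : ℝ) ^ m) atTop atTop := tendsto_pow_atTop_atTop_of_one_lt hb1
    obtain ⟨m0, h1, h2⟩ := ((ht.eventually_ge_atTop β).and (ht.eventually_gt_atTop β⁻¹)).exists
    exact ⟨m0, by rw [inv_lt_comm₀ (by positivity) hβ0]; exact h2, h1⟩
  exact hβ m0 hm1 hm2

/-- the sum of the tolerances -/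
theorem DP_bound : ∃ C0 : ℝ, 0 < C0 ∧ ∀ (K : ℝ) (S : Set ℕ) (k1 a i : ℕ), 0 < K → 1 ≤ k1 → 1 ≤ a →
    DP K S k1 a i ≤ 2 + K * C0 * Real.log (VS S (2 ^ (a + i * k1)) + 3) := by
  obtain ⟨C0, hC0, hV⟩ := VT_bound
  refine ⟨2 * C0 + 1, by positivity, fun K S k1 a i hK hk1 ha => ?_⟩
  have hU : ∀ n : ℕ, VS S (2 ^ n) ≤ C0 * n := by
    intro n
    induction n with
    | zero =>
      have : VS S (2 ^ 0) = 0 := by
        classical
        unfold VS
        refine Finset.sum_eq_zero fun p hp => ?_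
        rw [mem_filter, mem_range] at hp
        have := hp.2.1.two_le
        simp at hp
        omega
      rw [this]; simp
    | succ n ih =>
      rw [VS_step]
      have := hV S n
      push_cast
      linarith
  -- comparison with the sum over all blocks
  have h1 : ∀ f : ℕ → ℝ, (∀ n, 0 ≤ f n) → ∑ l ∈ range i, f (a + l * k1) ≤ ∑ n ∈ Ico a (a + i * k1), f n := by
    intro f hf
    have hinj : Set.InjOn (fun l => a + l * k1) (range i : Set ℕ) := by
      intro x _ y _ hxy
      have : a + x * k1 = a + y * k1 := hxy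
      have : x * k1 = y * k1 := by omega
      exact Nat.eq_of_mul_eq_mul_right (by omega) this
    rw [← Finset.sum_image (f := f) hinj]
    refine Finset.sum_le_sum_of_subset_of_nonneg ?_ fun n _ _ => hf n
    intro n hn
    rw [mem_image] at hn
    obtain ⟨l, hl, rfl⟩ := hn
    rw [mem_range] at hl
    rw [mem_Ico]
    refine ⟨by omega, ?_⟩
    have : l * k1 < i * k1 := Nat.mul_lt_mul_of_pos_right hl (by omega)
    omega
  set M := a + i * k1 with hM
  have h2 : ∀ m : ℕ, a ≤ m → ∑ n ∈ Ico a m, (1 / (n : ℝ) ^ 2) ≤ 2 / (a : ℝ) - 2 / (m : ℝ) := by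
    intro m hm
    induction m, hm using Nat.le_induction with
    | base => simp
    | succ m hm ih =>
      rw [Finset.sum_Ico_succ_top hm]
      have hm1 : (1 : ℝ) ≤ m := by exact_mod_cast ha.trans hm
      have h3 : 1 / (m : ℝ) ^ 2 ≤ 2 / (m : ℝ) - 2 / ((m + 1 : ℕ) : ℝ) := by
        push_cast
        have e : 2 / (m : ℝ) - 2 / ((m : ℝ) + 1) = 2 / (m * (m + 1)) := by field_simp; ring
        rw [e, div_le_div_iff₀ (by positivity) (by positivity)]
        nlinarith
      linarith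
  have h3 : ∀ m : ℕ, a ≤ m → ∑ n ∈ Ico a m, VT (TS S n) / n ≤
      (2 * C0 + 1) * (Real.log (VS S (2 ^ m) + 1) - Real.log (VS S (2 ^ a) + 1)) := by
    intro m hm
    induction m, hm using Nat.le_induction with
    | base => simp
    | succ m hm ih =>
      rw [Finset.sum_Ico_succ_top hm]
      have hm1 : (1 : ℝ) ≤ m := by exact_mod_cast ha.trans hm
      have hVm := VT_nonneg (TS S m)
      have hU1 := VS_nonneg S (2 ^ m)
      have hU2 := hU (m + 1)
      have hst := VS_step S m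
      have hpos : 0 < VS S (2 ^ (m + 1)) + 1 := by linarith
      have h4 : VT (TS S m) / (VS S (2 ^ (m + 1)) + 1) ≤
          Real.log (VS S (2 ^ (m + 1)) + 1) - Real.log (VS S (2 ^ m) + 1) := by
        rw [← Real.log_div hpos.ne' (by linarith)]
        have h5 := Real.one_sub_inv_le_log_of_pos (show 0 < (VS S (2 ^ (m + 1)) + 1) / (VS S (2 ^ m) + 1) by
          have : 0 < VS S (2 ^ m) + 1 := by linarith
          positivity)
        refine le_trans (le_of_eq ?_) h5
        rw [inv_div, eq_sub_iff_add_eq, ← add_div, div_eq_one_iff_eq hpos.ne', hst]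
        ring
      have h6 : VT (TS S m) / m ≤ (2 * C0 + 1) * (VT (TS S m) / (VS S (2 ^ (m + 1)) + 1)) := by
        rw [← mul_div_assoc, div_le_div_iff₀ (by linarith) hpos]
        have h7 : VS S (2 ^ (m + 1)) + 1 ≤ (2 * C0 + 1) * m := by
          push_cast at hU2
          nlinarith
        calc VT (TS S m) * (VS S (2 ^ (m + 1)) + 1) ≤ VT (TS S m) * ((2 * C0 + 1) * m) :=
              mul_le_mul_of_nonneg_left h7 hVm
          _ = _ := by ring
      have h8 : 0 ≤ 2 * C0 + 1 := by positivity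
      have := mul_le_mul_of_nonneg_left h4 h8
      linarith
  have haM : a ≤ M := by omega
  have hdp : DP K S k1 a i ≤ ∑ n ∈ Ico a M, dl K S n := h1 (dl K S) (dl_nonneg hK.le S)
  refine hdp.trans ?_
  unfold dl
  rw [Finset.sum_add_distrib]
  have e1 : ∑ n ∈ Ico a M, K * VT (TS S n) / n = K * ∑ n ∈ Ico a M, VT (TS S n) / n := by
    rw [Finset.mul_sum]
    exact Finset.sum_congr rfl fun n _ => by ring
  rw [e1]
  have g1 := h2 M haM
  have g2 := h3 M haM
  have ha0 : (1 : ℝ) ≤ a := by exact_mod_cast ha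
  have g3 : 2 / (a : ℝ) ≤ 2 := by rw [div_le_iff₀ (by linarith)]; linarith
  have g4 : 0 ≤ 2 / (M : ℝ) := by positivity
  have g5 : 0 ≤ Real.log (VS S (2 ^ a) + 1) := Real.log_nonneg (by
    have := VS_nonneg S (2 ^ a); linarith)
  have g6 : Real.log (VS S (2 ^ M) + 1) ≤ Real.log (VS S (2 ^ M) + 3) := by
    have := VS_nonneg S (2 ^ M)
    exact Real.log_le_log (by linarith) (by linarith)
  have g7 : (2 * C0 + 1) * (Real.log (VS S (2 ^ M) + 1) - Real.log (VS S (2 ^ a) + 1)) ≤
      (2 * C0 + 1) * Real.log (VS S (2 ^ M) + 3) := by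
    apply mul_le_mul_of_nonneg_left _ (by positivity)
    linarith
  have g8 := mul_le_mul_of_nonneg_left (g2.trans g7) hK.le
  calc _ ≤ 2 + K * ((2 * C0 + 1) * Real.log (VS S (2 ^ M) + 3)) := by linarith
    _ = _ := by ring

end Pool.Agent.N176.OW
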