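import Mathlib
import Pool.Agent.N176.OW.M2

set_option autoImplicit false

/-!
# Optimal windows and the Poisson law: statements of the final steps
-/

namespace Pool.Agent.N176.OW

open Finset Filter Topology MeasureTheory
open Pool.Agent.N176.GP (cnt XX NB MB)
open Pool.Agent.H305R2 (roughPart)

/-- TASK WIN: all windows. -/
def S_WIN : Prop := ∀ b : ℕ, 2 ≤ b → ∃ C : ℝ, 0 < C ∧ ∀ S : Set ℕ,
  Tendsto (fun n => VS S n) atTop atTop → ∀ᵐ β : ℝ, 0 < β → ∀ᶠ n : ℕ in atTop, ∀ n' ≥ n,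
    |((MB b S β n' : ℝ) - MB b S β n) - kap b * (VS S n' - VS S n)| ≤
      C * (√((VS S n' - VS S n) * Real.log (VS S n')) + Real.log (VS S n'))

/-- TASK LIL: the order of the law of the iterated logarithm. -/
def S_LIL : Prop := ∀ b : ℕ, 2 ≤ b → ∃ C : ℝ, 0 < C ∧ ∀ S : Set ℕ,
  Tendsto (fun n => VS S n) atTop atTop → ∀ᵐ β : ℝ, 0 < β → ∀ᶠ n : ℕ in atTop,
    |(MB b S β n : ℝ) - kap b * VS S n| ≤ C * √(VS S n * Real.log (Real.log (VS S n)))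

/-- the mean over a `b`-adic interval of a function of the integer with the first `t` digits -/
noncomputable def Av (b m A B t : ℕ) (f : ℕ → ℝ) : ℝ :=
  (∑ n ∈ Ico (A * b ^ (t - m)) (B * b ^ (t - m)), f n) / (b : ℝ) ^ t

/-- the elements up to `2^i` -/
def TL (T : Finset ℕ) (i : ℕ) : Finset ℕ := T.filter (fun p => p ≤ 2 ^ i)

/-- the elements in `(2^i, 2^(i+1)]` -/
def TB (T : Finset ℕ) (i : ℕ) : Finset ℕ := T.filter (fun p => 2 ^ i < p ∧ p ≤ 2 ^ (i + 1))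

/-- TASK UP: upper bound in all cells of level up to half the exponent. -/
def S_UP : Prop := ∀ b : ℕ, 2 ≤ b → ∃ C : ℝ, 0 < C ∧ ∃ P : ℕ, ∀ q ≥ P, ∀ z : ℕ, 2 * z ≤ q →
  ∀ j : ℕ, 1 ≤ j → (cnt b z j q : ℝ) ≤ C * (Real.log q / q) * (b : ℝ) ^ (q - z)

/-- TASK PR: pairs of exponents. -/
def S_PR : Prop := ∀ b : ℕ, 2 ≤ b → ∀ m A B : ℕ, 1 ≤ A → A < B → ∃ C : ℝ, 0 < C ∧ ∃ P : ℕ,
  ∀ p ≥ P, (∀ t ≥ p, Av b m A B t (fun n => XX p (n / b ^ (t - p))) ≤ C * (Real.log p / p)) ∧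
  ∀ q > p, ∀ t ≥ q,
    Av b m A B t (fun n => XX p (n / b ^ (t - p)) * XX q (n / b ^ (t - q))) ≤
      C * (Real.log p / p * (Real.log q / q) + Real.log p / p / (b : ℝ) ^ (q - p))

/-- TASK P1: one step. -/
def S_P1 : Prop := ∀ b : ℕ, 2 ≤ b → ∀ m A B : ℕ, 1 ≤ A → A < B → ∃ C : ℝ, 0 < C ∧ ∃ P : ℕ,
  ∀ T : Finset ℕ, (∀ p ∈ T, p.Prime ∧ 2 ^ P < p) → ∀ δ : ℝ, 0 ≤ δ → δ ≤ 1 / 10 →
  (∀ i, VT (TB T i) ≤ δ) → ∀ θ : ℝ, 0 ≤ θ → θ ≤ 1 → ∀ i ≥ P,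
  |Av b m A B (2 ^ (i + 1)) (fun n => θ ^ (hits (TL T (i + 1)) b (2 ^ (i + 1)) n).card) -
    (1 - (1 - θ) * (kap b * VT (TB T i))) *
      Av b m A B (2 ^ i) (fun n => θ ^ (hits (TL T i) b (2 ^ i) n).card)| ≤
    C * (δ * VT (TB T i) + VT (TB T i) / i + 1 / (i : ℝ) ^ 2 +
      ∑ q ∈ TB T i, ∑ p ∈ T.filter (fun p => p < q), Real.log p / p / (b : ℝ) ^ (q - p))

/-- TASK P2: the generating function. -/
def S_P2 : Prop := ∀ b : ℕ, 2 ≤ b → ∀ m A B : ℕ, 1 ≤ A → A < B → ∃ C : ℝ, 0 < C ∧ ∃ P : ℕ,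
  ∀ P' ≥ P, ∀ J : ℕ, ∀ T : Finset ℕ, (∀ p ∈ T, p.Prime ∧ 2 ^ P' < p ∧ p ≤ 2 ^ J) → P' ≤ J →
  ∀ δ : ℝ, 0 ≤ δ → δ ≤ 1 / 10 → (∀ i, VT (TB T i) ≤ δ) → ∀ θ : ℝ, 0 ≤ θ → θ ≤ 1 →
  |Av b m A B (2 ^ J) (fun n => θ ^ (hits T b (2 ^ J) n).card) -
    ((B : ℝ) - A) / (b : ℝ) ^ m * Real.exp (-((1 - θ) * (kap b * VT T)))| ≤
    C * (δ * VT T + (VT T + 1) / P' +
      ∑ q ∈ T, ∑ p ∈ T.filter (fun p => p < q), Real.log p / p / (b : ℝ) ^ (q - p))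

/-- TASK P3: continuity theorem for generating functions, Poisson limit. -/
def S_P3 : Prop := ∀ (f : ℕ → ℕ → ℝ) (μ lam : ℝ), 0 ≤ lam → (∀ n k, 0 ≤ f n k) →
  (∀ n, HasSum (f n) μ) →
  (∀ θ : ℝ, 0 ≤ θ → θ ≤ 1 → Tendsto (fun n => ∑' k, f n k * θ ^ k) atTop
    (𝓝 (μ * Real.exp (-(lam * (1 - θ)))))) →
  ∀ k : ℕ, Tendsto (fun n => f n k) atTop (𝓝 (μ * (Real.exp (-lam) * lam ^ k / k.factorial)))

/-- TASK P4: the Poisson law. -/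
def S_P4 : Prop := ∀ b : ℕ, 2 ≤ b → ∀ T : ℕ → Finset ℕ, (∀ n, ∀ p ∈ T n, p.Prime) →
  (∀ M : ℕ, ∀ᶠ n in atTop, ∀ p ∈ T n, M < p) →
  (∀ δ : ℝ, 0 < δ → ∀ᶠ n in atTop, ∀ x : ℕ,
    ∑ p ∈ (T n).filter (fun p => x < p ∧ p ≤ 2 * x), Real.log p / p ≤ δ) →
  Tendsto (fun n => ∑ q ∈ T n, ∑ p ∈ (T n).filter (fun p => p < q),
    Real.log p / p / (b : ℝ) ^ (q - p)) atTop (𝓝 0) →
  ∀ lam : ℝ, Tendsto (fun n => kap b * ∑ p ∈ T n, Real.log p / p) atTop (𝓝 lam) →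
  ∀ u v : ℝ, 0 ≤ u → u < v → ∀ k : ℕ,
    Tendsto (fun n => (volume {β : ℝ | u < β ∧ β ≤ v ∧
      ((T n).filter (fun p => (roughPart p (NB b β p)).Prime)).card = k}).toReal) atTop
      (𝓝 ((v - u) * (Real.exp (-lam) * lam ^ k / k.factorial)))

end Pool.Agent.N176.OW
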