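import Mathlib
import Pool.Agent.N176.OW.Stm
import Pool.Agent.N176.OW.Stm2
import Pool.Agent.N176.OW.Stm3
import Pool.Agent.N176.OW.GC
import Pool.Agent.N176.OW.TU2
import Pool.Agent.N455.OW.PV
import Pool.Agent.N490.OW.KT
import Pool.Agent.N645.OW.CV
import Pool.Agent.N618.OW.FA
import Pool.Agent.N618.OW.FM
import Pool.Agent.N644.OW.FW
import Pool.Agent.N75.OW.SG
import Pool.Agent.N136.OW.SV
import Pool.Agent.N123.OW.DS
import Pool.Agent.N545.OW.E4
import Pool.Agent.N697.OW.RB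
import Pool.Agent.N615.OW.MH
import Pool.Agent.N348.OW.EX
import Pool.Agent.N221.OW.BL

set_option autoImplicit false

/-!
# Optimal windows: assembly of the first part
-/

namespace Pool.Agent.N176.OW.All

open Pool.Agent.N176.OW

theorem kt : S_KT := Pool.Agent.N490.OW.kt Pool.Agent.N455.OW.pv
theorem cv : S_CV := Pool.Agent.N645.OW.cvs kt
theorem fa : S_FA := Pool.Agent.N618.OW.fa cv
theorem fw : S_FW := Pool.Agent.N644.OW.fw fa
theorem fm : S_FM := Pool.Agent.N618.OW.fm fw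
theorem gc : S_GC := Pool.Agent.N176.OW.GC2.gc fm
theorem tu : S_TU := Pool.Agent.N176.OW.TU2.tu (Pool.Agent.N136.OW.sv2 Pool.Agent.N75.OW.sg)
theorem e4 : S_E4 := Pool.Agent.N545.OW.e4 tu Pool.Agent.N123.OW.ds
theorem ex : S_EX := Pool.Agent.N348.OW.ex e4 Pool.Agent.N697.OW.rb Pool.Agent.N615.OW.mh
theorem bl : S_BL := Pool.Agent.N221.OW.bl ex

end Pool.Agent.N176.OW.All
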