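import Mathlib
import Pool.Agent.N176.OW.All
import Pool.Agent.N176.OW.Univ
import Pool.Agent.N441.OW.WIN
import Pool.Agent.N835.OW.LIL

set_option autoImplicit false

/-!
# Optimal windows: assembly of the second part
-/

namespace Pool.Agent.N176.OW.All

open Pool.Agent.N176.OW

theorem win : S_WIN := Pool.Agent.N441.OW.win bl ex gc
theorem lil : S_LIL := Pool.Agent.N835.OW.lil bl ex gc

end Pool.Agent.N176.OW.All
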