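import Mathlib
import Pool.Agent.N176.OW.All
import Pool.Agent.N999.OW.UP
import Pool.Agent.N456.OW.PR
import Pool.Agent.N595.OW.P1
import Pool.Agent.N413.OW.P2
import Pool.Agent.N157.OW.P3
import Pool.Agent.N401.OW.P4

set_option autoImplicit false

/-!
# The Poisson law: assembly
-/

namespace Pool.Agent.N176.OW.All

open Pool.Agent.N176.OW

theorem up : S_UP := Pool.Agent.N999.OW.up
theorem pr : S_PR := Pool.Agent.N456.OW.pr up
theorem p1 : S_P1 := Pool.Agent.N595.OW.p1 pr gc up
theorem p2 : S_P2 := Pool.Agent.N413.OW.p2 p1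
theorem p3 : S_P3 := Pool.Agent.N157.OW.p3
theorem p4 : S_P4 := Pool.Agent.N401.OW.p4 p2 p3

end Pool.Agent.N176.OW.All
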